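import Pool.Agent.H96.FFB.Bridge
import Pool.Agent.H93.FFB.T20
import Pool.Agent.H76.MXT.Asm
import Pool.Agent.H57.RED.Stmts

/-!
# No drawing of the base graph has all twenty crossings (MP_ffb5eb_co)
-/

set_option autoImplicit false

namespace Pool.FFL

open Pool.MCR

theorem adj_tab : ∀ i : Fin 11, Red.G0.Adj (sr id i) (tg id i) := by
  have h : ∀ i : Fin 11, (vt (Pool.FFB.st i), vt (Pool.FFB.en i)) ∈ Red.e0 ∨
      (vt (Pool.FFB.en i), vt (Pool.FFB.st i)) ∈ Red.e0 := by decide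
  exact h

theorem req_tab : ∀ q ∈ Pool.FFB.req,
    (vt (Pool.FFB.st (ix q.1)), vt (Pool.FFB.en (ix q.1)), vt (Pool.FFB.st (ix q.2)),
      vt (Pool.FFB.en (ix q.2))) ∈ Red.r20 ∨
    (vt (Pool.FFB.st (ix q.2)), vt (Pool.FFB.en (ix q.2)), vt (Pool.FFB.st (ix q.1)),
      vt (Pool.FFB.en (ix q.1))) ∈ Red.r20 := by decide

theorem t20_red : Red.T20_S := by
  intro D hall
  refine t20_of Pool.MXT.par_done Pool.MXT.lc1_done Pool.FFB.t20 D id Function.injective_id
    adj_tab ?_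
  intro q hq
  rcases req_tab q hq with h | h
  · exact hall _ h
  · exact XX.symm (hall _ h)

end Pool.FFL
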