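import Pool.Agent.H96.FFB.Par3
import Pool.Agent.H93.FFB.Defs

/-!
# From drawings to patterns (MP_ffb5eb_co)
-/

set_option autoImplicit false

namespace Pool.FFL

open Set Pool.MCR Pool.MXT

/-- a natural number as a base vertex. -/
def vt (n : ℕ) : Fin 8 := ⟨n % 8, Nat.mod_lt _ (by norm_num)⟩

/-- a natural number as a number of an edge. -/
def ix (n : ℕ) : Fin 11 := ⟨n % 11, Nat.mod_lt _ (by norm_num)⟩

theorem ix_val (e : ℕ) (he : e < 11) : ((ix e : Fin 11) : ℕ) = e := Nat.mod_eq_of_lt he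

theorem ix_inj (e f : ℕ) (he : e < 11) (hf : f < 11) (h : ix e = ix f) : e = f := by
  rw [← ix_val e he, ← ix_val f hf, h]

variable {V : Type} {G : SimpleGraph V}

/-- the start of the edge `i` in the graph `G`. -/
def sr (φ : Fin 8 → V) (i : Fin 11) : V := φ (vt (Pool.FFB.st i))

/-- the end of the edge `i` in the graph `G`. -/
def tg (φ : Fin 8 → V) (i : Fin 11) : V := φ (vt (Pool.FFB.en i))

theorem tab_ne : ∀ i j : Fin 11, i ≠ j →
    ¬ (vt (Pool.FFB.st i) = vt (Pool.FFB.st j) ∧ vt (Pool.FFB.en i) = vt (Pool.FFB.en j)) ∧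
    ¬ (vt (Pool.FFB.st i) = vt (Pool.FFB.en j) ∧ vt (Pool.FFB.en i) = vt (Pool.FFB.st j)) := by
  decide

theorem tab_ss : ∀ i j : Fin 11, Pool.FFB.st i = Pool.FFB.st j ↔
    vt (Pool.FFB.st i) = vt (Pool.FFB.st j) := by decide

theorem tab_se : ∀ i j : Fin 11, Pool.FFB.st i = Pool.FFB.en j ↔
    vt (Pool.FFB.st i) = vt (Pool.FFB.en j) := by decide

theorem tab_es : ∀ i j : Fin 11, Pool.FFB.en i = Pool.FFB.st j ↔
    vt (Pool.FFB.en i) = vt (Pool.FFB.st j) := by decide

theorem tab_ee : ∀ i j : Fin 11, Pool.FFB.en i = Pool.FFB.en j ↔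
    vt (Pool.FFB.en i) = vt (Pool.FFB.en j) := by decide

section
variable {φ : Fin 8 → V} (hφ : Function.Injective φ)
include hφ

theorem adjc_iff (i j : Fin 11) : Adjc (sr φ) (tg φ) i j ↔ ¬ Pool.FFB.Dj i j := by
  unfold Adjc Pool.FFB.Dj sr tg
  rw [hφ.eq_iff, hφ.eq_iff, hφ.eq_iff, hφ.eq_iff, ← tab_ss, ← tab_se, ← tab_es, ← tab_ee]
  tauto

end

theorem ends_start (φ : Fin 8 → V) (i j : Fin 11)
    (h : Pool.FFB.st i = Pool.FFB.st j ∨ Pool.FFB.st i = Pool.FFB.en j) :
    sr φ i = sr φ j ∨ sr φ i = tg φ j := by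
  unfold sr tg
  rcases h with h | h
  · left; rw [(tab_ss i j).1 h]
  · right; rw [(tab_se i j).1 h]

theorem ends_end (φ : Fin 8 → V) (i j : Fin 11)
    (h : Pool.FFB.en i = Pool.FFB.st j ∨ Pool.FFB.en i = Pool.FFB.en j) :
    tg φ i = sr φ j ∨ tg φ i = tg φ j := by
  unfold sr tg
  rcases h with h | h
  · left; rw [(tab_es i j).1 h]
  · right; rw [(tab_ee i j).1 h]

/-- a common end of three edges has one parameter. -/
theorem Fam.ps_common {I : Type} {D : Drawing G} {src tgt : I → V} {γ : I → ℝ → ℝ × ℝ}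
    (F : Fam D src tgt γ) (i j k : I) (hij : i ≠ j) (hik : i ≠ k) (w : V)
    (hi : EndOf src tgt w i) (hj : EndOf src tgt w j) (hk : EndOf src tgt w k) :
    ps γ i j = ps γ i k := by
  have h1 := (F.common i j hij w hi hj).2
  have h2 := (F.common i k hik w hi hk).2
  exact F.inj i (ps_mem γ i j) (ps_mem γ i k) (by rw [h1, h2])

theorem lss_false {p n r s x : ℝ} (h : Pool.FFB.Lss p n r s) (h1 : x ∈ uIcc p n)
    (h2 : x ∈ uIcc r s) : False := by
  obtain ⟨a, b, c, d⟩ := h
  rw [mem_uIcc] at h1 h2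
  rcases h1 with h1 | h1 <;> rcases h2 with h2 | h2 <;> linarith [h1.1, h1.2, h2.1, h2.2]

theorem lss_disj {p n r s x : ℝ} (h : Pool.FFB.Lss p n r s ∨ Pool.FFB.Lss r s p n)
    (h1 : x ∈ uIcc p n) (h2 : x ∈ uIcc r s) : False := by
  rcases h with h | h
  · exact lss_false h h1 h2
  · exact lss_false h h2 h1

theorem add_two_eq (i : Fin 3) : i + 2 = i - 1 := by
  fin_cases i <;> rfl

/-- The crossings of a drawing, as a relation between numbers of edges. -/
def XR (D : Drawing G) (φ : Fin 8 → V) (e f : ℕ) : Prop :=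
  e < 11 ∧ f < 11 ∧ e ≠ f ∧ XX D (sr φ) (tg φ) (ix e) (ix f)

theorem bridge (hPAR : S_PAR) (hLC1 : S_LC1) (D : Drawing G) (φ : Fin 8 → V)
    (hφ : Function.Injective φ) (hadj : ∀ i : Fin 11, G.Adj (sr φ i) (tg φ i)) :
    ∃ P : Pool.FFB.Pat, P.X = XR D φ := by
  obtain ⟨γ, F⟩ := exists_fam D (sr φ) (tg φ) hadj (by
    intro i j hij h
    rw [Sym2.eq_iff] at h
    obtain ⟨h1, h2⟩ := tab_ne i j hij
    rcases h with ⟨ha, hb⟩ | ⟨ha, hb⟩
    · exact h1 ⟨hφ ha, hφ hb⟩
    · exact h2 ⟨hφ ha, hφ hb⟩)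
  have hne : ∀ e f : ℕ, e < 11 → f < 11 → e ≠ f → ix e ≠ ix f := fun e f he hf h h1 =>
    h (ix_inj e f he hf h1)
  have hmeet : ∀ e f : ℕ, e < 11 → f < 11 → e ≠ f → (¬ Pool.FFB.Dj e f ∨ XR D φ e f) →
      Meet γ (ix e) (ix f) := by
    intro e f he hf hef h
    rw [F.meet_iff _ _ (hne e f he hf hef)]
    rcases h with h | h
    · left
      rw [adjc_iff hφ, ix_val e he, ix_val f hf]
      exact h
    · exact Or.inr h.2.2.2
  refine ⟨{ X := XR D φ
            pos := fun e f => ps γ (ix e) (ix f)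
            symm := ?_, start := ?_, fin := ?_, inn := ?_, inj := ?_, par := ?_ }, rfl⟩
  · rintro e f ⟨he, hf, h1, h2⟩
    exact ⟨hf, he, h1.symm, h2.symm⟩
  · intro e f he hf hef h
    refine F.ps_zero _ _ (hne e f he hf hef) (ends_start φ _ _ ?_)
    rw [ix_val e he, ix_val f hf]
    exact h
  · intro e f he hf hef h
    refine F.ps_one _ _ (hne e f he hf hef) (ends_end φ _ _ ?_)
    rw [ix_val e he, ix_val f hf]
    exact h
  · intro e f he hf _ hX
    exact F.XX_mem (hne e f he hf hX.2.2.1) hX.2.2.2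
  · intro e f g he hf hg _ _ hX hY hfg
    exact F.XX_ne _ _ _ (hne e f he hf hX.2.2.1) (hne e g he hg hY.2.2.1) (hne f g hf hg hfg)
      hX.2.2.2 (F.meet_of_XX hY.2.2.2)
  · intro a b ha hb ia ib ma mb na nb hdis hsh
    have ia' : Function.Injective (fun i => ix (a i)) := fun i j h =>
      ia (ix_inj _ _ (ha i) (ha j) h)
    have ib' : Function.Injective (fun i => ix (b i)) := fun i j h =>
      ib (ix_inj _ _ (hb i) (hb j) h)
    have Ta : Tri γ (fun i => ix (a i)) := by
      refine ⟨ia', ?_, ?_⟩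
      · intro i
        exact hmeet _ _ (ha i) (ha (i + 1)) (ne_succ ia i) (ma i)
      · intro i
        have h := na i
        simp only [add_two_eq] at h
        exact h
    have Tb : Tri γ (fun i => ix (b i)) := by
      refine ⟨ib', ?_, ?_⟩
      · intro i
        exact hmeet _ _ (hb i) (hb (i + 1)) (ne_succ ib i) (mb i)
      · intro i
        have h := nb i
        simp only [add_two_eq] at h
        exact h
    simp only [add_two_eq] at hdis hsh
    have key := F.par3 hPAR hLC1 (fun i => ix (a i)) (fun i => ix (b i)) Ta Tb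
      (by
        intro i j hij s h1 h2
        exact lss_disj (hdis i j (ix_inj _ _ (ha i) (hb j) hij)) h1 h2)
      (by
        intro i j w w1 w2 w3 w4
        have na1 : ix (a i) ≠ ix (a (i + 1)) := ne_succ ia' i
        have nb1 : ix (b j) ≠ ix (b (j + 1)) := ne_succ ib' j
        by_cases hab : a i = b j
        · have h5 : ps γ (ix (a i)) (ix (a (i + 1))) = ps γ (ix (b j)) (ix (b (j + 1))) := by
            have nb1' : ix (a i) ≠ ix (b (j + 1)) := by rw [hab]; exact nb1
            rw [F.ps_common (ix (a i)) (ix (a (i + 1))) (ix (b (j + 1))) na1 nb1' w w1 w2 w4,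
              hab]
          refine lss_disj (hdis i j hab) (x := ps γ (ix (a i)) (ix (a (i + 1)))) right_mem_uIcc ?_
          rw [h5]
          exact right_mem_uIcc
        · have hne' : ix (a i) ≠ ix (b j) := hne _ _ (ha i) (hb j) hab
          have hD : ¬ Pool.FFB.Dj (a i) (b j) := by
            have h6 : Adjc (sr φ) (tg φ) (ix (a i)) (ix (b j)) := by
              unfold Adjc
              rcases w1 with w1 | w1 <;> rcases w3 with w3 | w3
              · left; rw [← w1, ← w3]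
              · right; left; rw [← w1, ← w3]
              · right; right; left; rw [← w1, ← w3]
              · right; right; right; rw [← w1, ← w3]
            rw [adjc_iff hφ, ix_val _ (ha i), ix_val _ (hb j)] at h6
            exact h6
          rcases hsh i j hab hD with h7 | h7
          · exact h7.2 (F.ps_common (ix (a i)) (ix (b j)) (ix (a (i + 1))) hne' na1 w w1 w3 w2)
          · exact h7.2
              (F.ps_common (ix (b j)) (ix (a i)) (ix (b (j + 1))) hne'.symm nb1 w w3 w1 w4))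
    refine Eq.subst (motive := Even) ?_ key
    refine Finset.sum_congr rfl (fun i _ => Finset.sum_congr rfl (fun j _ => ?_))
    unfold Pool.FFB.tm
    rw [add_two_eq, add_two_eq]
    split_ifs with h1 h2 h2
    · rfl
    · exfalso
      obtain ⟨⟨k1, k2⟩, k3, k4⟩ := h1
      refine h2 ⟨?_, ⟨ha i, hb j, fun h => k1 (by rw [h]), k2⟩, k3, k4⟩
      have h5 := F.not_adjc_of_XX _ _ k1 k2
      rw [adjc_iff hφ, not_not, ix_val _ (ha i), ix_val _ (hb j)] at h5
      exact h5
    · exfalso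
      obtain ⟨-, k2, k3, k4⟩ := h2
      exact h1 ⟨⟨hne _ _ (ha i) (hb j) k2.2.2.1, k2.2.2.2⟩, k3, k4⟩
    · rfl

/-- No drawing of `G` contains all the twenty crossings, if `T20` holds. -/
theorem t20_of (hPAR : S_PAR) (hLC1 : S_LC1) (hT : Pool.FFB.T20) (D : Drawing G) (φ : Fin 8 → V)
    (hφ : Function.Injective φ) (hadj : ∀ i : Fin 11, G.Adj (sr φ i) (tg φ i))
    (hall : ∀ q ∈ Pool.FFB.req, XX D (sr φ) (tg φ) (ix q.1) (ix q.2)) : False := by
  obtain ⟨P, hP⟩ := bridge hPAR hLC1 D φ hφ hadj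
  refine hT P ?_
  intro q hq
  rw [hP]
  have h1 : ∀ q ∈ Pool.FFB.req, q.1 < 11 ∧ q.2 < 11 ∧ q.1 ≠ q.2 := by decide
  obtain ⟨a, b, c⟩ := h1 q hq
  exact ⟨a, b, c, hall q hq⟩

end Pool.FFL
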