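import Pool.Agent.H96.FFB.Layer

/-!
# A 4-cycle has at most one crossing (MP_ffb5eb_co)
-/

set_option autoImplicit false

namespace Pool.FFL

open Set Pool.MCR Pool.MXT

/-- three given values. -/
def t3 {α : Type} (a b c : α) : ℕ → α
  | 0 => a
  | 1 => b
  | _ => c

/-- The four curves `γ 0 = xy`, `γ 1 = zt`, `γ 2 = zy`, `γ 3 = xt` cannot cross twice. -/
theorem four (hPAR : S_PAR) (hLC1 : S_LC1) (hLC2 : S_LC2) {V : Type} {G : SimpleGraph V}
    (D : Drawing G) (src tgt : Fin 4 → V) (γ : Fin 4 → ℝ → ℝ × ℝ) (F : Fam D src tgt γ)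
    (h03 : src 0 = src 3) (h02 : tgt 0 = tgt 2) (h12 : src 1 = src 2) (h13 : tgt 1 = tgt 3)
    (hX : XX D src tgt 0 1) (hY : XX D src tgt 2 3) : False := by
  have n01 : (0 : Fin 4) ≠ 1 := by decide
  have n02 : (0 : Fin 4) ≠ 2 := by decide
  have n03 : (0 : Fin 4) ≠ 3 := by decide
  have n12 : (1 : Fin 4) ≠ 2 := by decide
  have n13 : (1 : Fin 4) ≠ 3 := by decide
  have n23 : (2 : Fin 4) ≠ 3 := by decide
  obtain ⟨p0, hp0⟩ : ∃ p, p = ps γ 0 1 := ⟨_, rfl⟩
  obtain ⟨p1, hp1⟩ : ∃ p, p = ps γ 1 0 := ⟨_, rfl⟩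
  obtain ⟨q2, hq2⟩ : ∃ p, p = ps γ 2 3 := ⟨_, rfl⟩
  obtain ⟨q3, hq3⟩ : ∃ p, p = ps γ 3 2 := ⟨_, rfl⟩
  have ip0 : p0 ∈ Ioo (0 : ℝ) 1 := by rw [hp0]; exact F.XX_mem n01 hX
  have ip1 : p1 ∈ Ioo (0 : ℝ) 1 := by rw [hp1]; exact F.XX_mem n01.symm hX.symm
  have iq2 : q2 ∈ Ioo (0 : ℝ) 1 := by rw [hq2]; exact F.XX_mem n23 hY
  have iq3 : q3 ∈ Ioo (0 : ℝ) 1 := by rw [hq3]; exact F.XX_mem n23.symm hY.symm
  have eP : γ 0 p0 = γ 1 p1 := by rw [hp0, hp1]; exact F.ps_pt 0 1 n01 (F.meet_of_XX hX)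
  have eQ : γ 2 q2 = γ 3 q3 := by rw [hq2, hq3]; exact F.ps_pt 2 3 n23 (F.meet_of_XX hY)
  have ex : γ 0 0 = γ 3 0 := by rw [F.zero, F.zero, h03]
  have ey : γ 0 1 = γ 2 1 := by rw [F.one, F.one, h02]
  have ez : γ 1 0 = γ 2 0 := by rw [F.zero, F.zero, h12]
  have et : γ 1 1 = γ 3 1 := by rw [F.one, F.one, h13]
  have i0 : (0 : ℝ) ∈ Icc (0 : ℝ) 1 := ⟨le_rfl, zero_le_one⟩
  have i1 : (1 : ℝ) ∈ Icc (0 : ℝ) 1 := ⟨zero_le_one, le_rfl⟩
  have jp0 : p0 ∈ Icc (0 : ℝ) 1 := ⟨ip0.1.le, ip0.2.le⟩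
  have jp1 : p1 ∈ Icc (0 : ℝ) 1 := ⟨ip1.1.le, ip1.2.le⟩
  have jq2 : q2 ∈ Icc (0 : ℝ) 1 := ⟨iq2.1.le, iq2.2.le⟩
  have jq3 : q3 ∈ Icc (0 : ℝ) 1 := ⟨iq3.1.le, iq3.2.le⟩
  -- the two walks
  have hA : Wk 3 (t3 (γ 0) (γ 1) (γ 2)) (t3 1 p1 0) (t3 p0 0 1) := by
    refine ⟨by norm_num, ?_, ?_, ?_, ?_, ?_⟩
    · intro k _
      rcases k with _ | _ | k <;> exact F.cont _
    · intro k _
      rcases k with _ | _ | k
      · exact (F.inj 0).mono (by
          intro s hs
          change s ∈ uIcc 1 p0 at hs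
          rw [uIcc_of_ge ip0.2.le] at hs
          exact ⟨le_trans ip0.1.le hs.1, hs.2⟩)
      · exact (F.inj 1).mono (by
          intro s hs
          change s ∈ uIcc p1 0 at hs
          rw [uIcc_of_ge ip1.1.le] at hs
          exact ⟨hs.1, le_trans hs.2 ip1.2.le⟩)
      · exact (F.inj 2).mono (by
          intro s hs
          change s ∈ uIcc 0 1 at hs
          rw [uIcc_of_le zero_le_one] at hs
          exact hs)
    · intro k _
      rcases k with _ | _ | k
      · exact (ne_of_lt ip0.2).symm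
      · exact (ne_of_lt ip1.1).symm
      · exact zero_ne_one
    · intro k hk
      rcases k with _ | _ | k
      · exact eP
      · exact ez
      · omega
    · exact ey.symm
  have hB : Wk 3 (t3 (γ 0) (γ 1) (γ 3)) (t3 0 p1 1) (t3 p0 1 0) := by
    refine ⟨by norm_num, ?_, ?_, ?_, ?_, ?_⟩
    · intro k _
      rcases k with _ | _ | k <;> exact F.cont _
    · intro k _
      rcases k with _ | _ | k
      · exact (F.inj 0).mono (by
          intro s hs
          change s ∈ uIcc 0 p0 at hs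
          rw [uIcc_of_le ip0.1.le] at hs
          exact ⟨hs.1, le_trans hs.2 ip0.2.le⟩)
      · exact (F.inj 1).mono (by
          intro s hs
          change s ∈ uIcc p1 1 at hs
          rw [uIcc_of_le ip1.2.le] at hs
          exact ⟨le_trans ip1.1.le hs.1, hs.2⟩)
      · exact (F.inj 3).mono (by
          intro s hs
          change s ∈ uIcc 1 0 at hs
          rw [uIcc_of_ge zero_le_one] at hs
          exact hs)
    · intro k _
      rcases k with _ | _ | k
      · exact ne_of_lt ip0.1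
      · exact ne_of_lt ip1.2
      · exact one_ne_zero
    · intro k hk
      rcases k with _ | _ | k
      · exact eP
      · exact et
      · omega
    · exact ex.symm
  set A := crv 3 (t3 (γ 0) (γ 1) (γ 2)) (t3 1 p1 0) (t3 p0 0 1) with hAdef
  set B := crv 3 (t3 (γ 0) (γ 1) (γ 3)) (t3 0 p1 1) (t3 p0 1 0) with hBdef
  -- values on the pieces
  have A0 : ∀ s ∈ Icc (0 : ℝ) 1, A s = γ 0 (1 + s * (p0 - 1)) := by
    intro s hs
    have h := hA.crv_eq 0 (by norm_num) s (by simpa using hs)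
    rw [← hAdef] at h
    rw [h]
    change γ 0 (1 + (s - ((0 : ℕ) : ℝ)) * (p0 - 1)) = _
    simp
  have A1 : ∀ s ∈ Icc (1 : ℝ) 2, A s = γ 1 (p1 + (s - 1) * (0 - p1)) := by
    intro s hs
    have h := hA.crv_eq 1 (by norm_num) s (by constructor <;> push_cast <;> linarith [hs.1, hs.2])
    rw [← hAdef] at h
    rw [h]
    change γ 1 (p1 + (s - ((1 : ℕ) : ℝ)) * (0 - p1)) = _
    simp
  have A2 : ∀ s ∈ Icc (2 : ℝ) 3, A s = γ 2 (s - 2) := by
    intro s hs
    have h := hA.crv_eq 2 (by norm_num) s (by constructor <;> push_cast <;> linarith [hs.1, hs.2])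
    rw [← hAdef] at h
    rw [h]
    change γ 2 (0 + (s - ((2 : ℕ) : ℝ)) * (1 - 0)) = _
    simp
  have B0 : ∀ s ∈ Icc (0 : ℝ) 1, B s = γ 0 (s * p0) := by
    intro s hs
    have h := hB.crv_eq 0 (by norm_num) s (by simpa using hs)
    rw [← hBdef] at h
    rw [h]
    change γ 0 (0 + (s - ((0 : ℕ) : ℝ)) * (p0 - 0)) = _
    simp
  have B1 : ∀ s ∈ Icc (1 : ℝ) 2, B s = γ 1 (p1 + (s - 1) * (1 - p1)) := by
    intro s hs
    have h := hB.crv_eq 1 (by norm_num) s (by constructor <;> push_cast <;> linarith [hs.1, hs.2])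
    rw [← hBdef] at h
    rw [h]
    change γ 1 (p1 + (s - ((1 : ℕ) : ℝ)) * (1 - p1)) = _
    simp
  have B2 : ∀ s ∈ Icc (2 : ℝ) 3, B s = γ 3 (3 - s) := by
    intro s hs
    have h := hB.crv_eq 2 (by norm_num) s (by constructor <;> push_cast <;> linarith [hs.1, hs.2])
    rw [← hBdef] at h
    rw [h]
    change γ 3 (1 + (s - ((2 : ℕ) : ℝ)) * (0 - 1)) = _
    congr 1
    push_cast
    ring
  have split3 : ∀ s ∈ Icc (0 : ℝ) 3, s ∈ Icc (0 : ℝ) 1 ∨ s ∈ Icc (1 : ℝ) 2 ∨
      s ∈ Icc (2 : ℝ) 3 := by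
    intro s hs
    rcases le_total s 1 with h | h
    · exact Or.inl ⟨hs.1, h⟩
    · rcases le_total s 2 with h' | h'
      · exact Or.inr (Or.inl ⟨h, h'⟩)
      · exact Or.inr (Or.inr ⟨h', hs.2⟩)
  have ra0 : ∀ s ∈ Icc (0 : ℝ) 1, 1 + s * (p0 - 1) ∈ Icc p0 1 := by
    intro s hs
    constructor <;> nlinarith [hs.1, hs.2, ip0.1, ip0.2]
  have ra1 : ∀ s ∈ Icc (1 : ℝ) 2, p1 + (s - 1) * (0 - p1) ∈ Icc 0 p1 := by
    intro s hs
    constructor <;> nlinarith [hs.1, hs.2, ip1.1, ip1.2]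
  have rb0 : ∀ s ∈ Icc (0 : ℝ) 1, s * p0 ∈ Icc 0 p0 := by
    intro s hs
    constructor <;> nlinarith [hs.1, hs.2, ip0.1, ip0.2]
  have rb1 : ∀ s ∈ Icc (1 : ℝ) 2, p1 + (s - 1) * (1 - p1) ∈ Icc p1 1 := by
    intro s hs
    constructor <;> nlinarith [hs.1, hs.2, ip1.1, ip1.2]
  have cov : ∀ s ∈ Icc (0 : ℝ) 3, ∀ t ∈ Icc (0 : ℝ) 3, A s = B t →
      (s = 1 ∧ t = 1) ∨ (s = 2 + q2 ∧ t = 3 - q3) := by
    intro s hs t ht hst
    rcases split3 s hs with h | h | h <;> rcases split3 t ht with h' | h' | h'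
    · rw [A0 s h, B0 t h'] at hst
      have a1 := ra0 s h
      have a2 := rb0 t h'
      have a3 := F.inj 0 ⟨le_trans jp0.1 a1.1, a1.2⟩ ⟨a2.1, le_trans a2.2 jp0.2⟩ hst
      left
      have a4 : 1 + s * (p0 - 1) = p0 := le_antisymm (by rw [a3]; exact a2.2) a1.1
      have a5 : (s - 1) * (p0 - 1) = 0 := by linarith
      have a6 : (t - 1) * p0 = 0 := by linarith
      rcases mul_eq_zero.1 a5 with a7 | a7
      · rcases mul_eq_zero.1 a6 with a8 | a8
        · exact ⟨by linarith, by linarith⟩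
        · linarith [ip0.1]
      · linarith [ip0.2]
    · rw [A0 s h, B1 t h'] at hst
      have a1 := ra0 s h
      have a2 := rb1 t h'
      obtain ⟨a3, a4⟩ := F.uniq 0 1 n01 _ _ _ _ ⟨le_trans jp0.1 a1.1, a1.2⟩
        ⟨le_trans jp1.1 a2.1, a2.2⟩ jp0 jp1 hst eP
      left
      have a5 : (s - 1) * (p0 - 1) = 0 := by linarith
      have a6 : (t - 1) * (1 - p1) = 0 := by linarith
      rcases mul_eq_zero.1 a5 with a7 | a7
      · rcases mul_eq_zero.1 a6 with a8 | a8
        · exact ⟨by linarith, by linarith⟩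
        · linarith [ip1.2]
      · linarith [ip0.2]
    · rw [A0 s h, B2 t h'] at hst
      have a1 := ra0 s h
      obtain ⟨a3, a4⟩ := F.uniq 0 3 n03 _ _ _ _ ⟨le_trans jp0.1 a1.1, a1.2⟩
        ⟨by linarith [h'.2], by linarith [h'.1]⟩ i0 i0 hst ex
      linarith [a1.1, ip0.1]
    · rw [A1 s h, B0 t h'] at hst
      have a1 := ra1 s h
      have a2 := rb0 t h'
      obtain ⟨a3, a4⟩ := F.uniq 1 0 n01.symm _ _ _ _ ⟨a1.1, le_trans a1.2 jp1.2⟩
        ⟨a2.1, le_trans a2.2 jp0.2⟩ jp1 jp0 hst eP.symm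
      left
      have a5 : (s - 1) * p1 = 0 := by linarith
      have a6 : (t - 1) * p0 = 0 := by linarith
      rcases mul_eq_zero.1 a5 with a7 | a7
      · rcases mul_eq_zero.1 a6 with a8 | a8
        · exact ⟨by linarith, by linarith⟩
        · linarith [ip0.1]
      · linarith [ip1.1]
    · rw [A1 s h, B1 t h'] at hst
      have a1 := ra1 s h
      have a2 := rb1 t h'
      have a3 := F.inj 1 ⟨a1.1, le_trans a1.2 jp1.2⟩ ⟨le_trans jp1.1 a2.1, a2.2⟩ hst
      left
      have a4 : p1 + (s - 1) * (0 - p1) = p1 := le_antisymm a1.2 (by rw [a3]; exact a2.1)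
      have a5 : (s - 1) * p1 = 0 := by linarith
      have a6 : (t - 1) * (1 - p1) = 0 := by linarith
      rcases mul_eq_zero.1 a5 with a7 | a7
      · rcases mul_eq_zero.1 a6 with a8 | a8
        · exact ⟨by linarith, by linarith⟩
        · linarith [ip1.2]
      · linarith [ip1.1]
    · rw [A1 s h, B2 t h'] at hst
      have a1 := ra1 s h
      obtain ⟨a3, a4⟩ := F.uniq 1 3 n13 _ _ _ _ ⟨a1.1, le_trans a1.2 jp1.2⟩
        ⟨by linarith [h'.2], by linarith [h'.1]⟩ i1 i1 hst et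
      linarith [a1.2, ip1.2]
    · rw [A2 s h, B0 t h'] at hst
      have a2 := rb0 t h'
      obtain ⟨a3, a4⟩ := F.uniq 2 0 n02.symm _ _ _ _
        ⟨by linarith [h.1], by linarith [h.2]⟩ ⟨a2.1, le_trans a2.2 jp0.2⟩ i1 i1 hst ey.symm
      linarith [a2.2, ip0.2]
    · rw [A2 s h, B1 t h'] at hst
      have a2 := rb1 t h'
      obtain ⟨a3, a4⟩ := F.uniq 2 1 n12.symm _ _ _ _
        ⟨by linarith [h.1], by linarith [h.2]⟩ ⟨le_trans jp1.1 a2.1, a2.2⟩ i0 i0 hst ez.symm
      linarith [a2.1, ip1.1]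
    · rw [A2 s h, B2 t h'] at hst
      obtain ⟨a3, a4⟩ := F.uniq 2 3 n23 _ _ _ _
        ⟨by linarith [h.1], by linarith [h.2]⟩ ⟨by linarith [h'.2], by linarith [h'.1]⟩ jq2 jq3
        hst eQ
      right
      exact ⟨by linarith, by linarith⟩
  -- local parities
  have z1 : ZLoc A B 1 1 0 := by
    refine hLC2 (D.arc s(src 0, tgt 0)) (D.arc s(src 1, tgt 1)) (γ 0 p0) ?_ A B 1 1 1 one_pos
      ?_ ?_ ?_ ?_ ?_ ?_ ?_ ?_ ?_
    · rw [hp0]; exact F.proper 0 1 n01 hX
    · exact hA.crv_cont.mono (fun s hs => ⟨by linarith [hs.1], by push_cast; linarith [hs.2]⟩)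
    · exact hB.crv_cont.mono (fun s hs => ⟨by linarith [hs.1], by push_cast; linarith [hs.2]⟩)
    · have key : ∀ s ∈ Icc (0 : ℝ) 1, ∀ t ∈ Icc (1 : ℝ) 2, A s = A t → s = t := by
        intro s hs t ht hst
        rw [A0 s hs, A1 t ht] at hst
        have a1 := ra0 s hs
        have a2 := ra1 t ht
        obtain ⟨a3, a4⟩ := F.uniq 0 1 n01 _ _ _ _ ⟨le_trans jp0.1 a1.1, a1.2⟩
          ⟨a2.1, le_trans a2.2 jp1.2⟩ jp0 jp1 hst eP
        have a5 : (s - 1) * (p0 - 1) = 0 := by linarith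
        have a6 : (t - 1) * p1 = 0 := by linarith
        rcases mul_eq_zero.1 a5 with a7 | a7
        · rcases mul_eq_zero.1 a6 with a8 | a8
          · linarith
          · linarith [ip1.1]
        · linarith [ip0.2]
      intro s hs t ht hst
      rcases le_total s 1 with h | h <;> rcases le_total t 1 with h' | h'
      · have b1 : s ∈ Icc (0 : ℝ) 1 := ⟨by linarith [hs.1], h⟩
        have b2 : t ∈ Icc (0 : ℝ) 1 := ⟨by linarith [ht.1], h'⟩
        rw [A0 s b1, A0 t b2] at hst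
        have c1 := ra0 s b1
        have c2 := ra0 t b2
        have c3 := F.inj 0 ⟨le_trans jp0.1 c1.1, c1.2⟩ ⟨le_trans jp0.1 c2.1, c2.2⟩ hst
        have c4 : (s - t) * (p0 - 1) = 0 := by linarith
        rcases mul_eq_zero.1 c4 with c5 | c5
        · linarith
        · linarith [ip0.2]
      · exact key s ⟨by linarith [hs.1], h⟩ t ⟨h', by linarith [ht.2]⟩ hst
      · exact (key t ⟨by linarith [ht.1], h'⟩ s ⟨h, by linarith [hs.2]⟩ hst.symm).symm
      · have b1 : s ∈ Icc (1 : ℝ) 2 := ⟨h, by linarith [hs.2]⟩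
        have b2 : t ∈ Icc (1 : ℝ) 2 := ⟨h', by linarith [ht.2]⟩
        rw [A1 s b1, A1 t b2] at hst
        have c1 := ra1 s b1
        have c2 := ra1 t b2
        have c3 := F.inj 1 ⟨c1.1, le_trans c1.2 jp1.2⟩ ⟨c2.1, le_trans c2.2 jp1.2⟩ hst
        have c4 : (s - t) * p1 = 0 := by linarith
        rcases mul_eq_zero.1 c4 with c5 | c5
        · linarith
        · linarith [ip1.1]
    · have key : ∀ s ∈ Icc (0 : ℝ) 1, ∀ t ∈ Icc (1 : ℝ) 2, B s = B t → s = t := by
        intro s hs t ht hst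
        rw [B0 s hs, B1 t ht] at hst
        have a1 := rb0 s hs
        have a2 := rb1 t ht
        obtain ⟨a3, a4⟩ := F.uniq 0 1 n01 _ _ _ _ ⟨a1.1, le_trans a1.2 jp0.2⟩
          ⟨le_trans jp1.1 a2.1, a2.2⟩ jp0 jp1 hst eP
        have a5 : (s - 1) * p0 = 0 := by linarith
        have a6 : (t - 1) * (1 - p1) = 0 := by linarith
        rcases mul_eq_zero.1 a5 with a7 | a7
        · rcases mul_eq_zero.1 a6 with a8 | a8
          · linarith
          · linarith [ip1.2]
        · linarith [ip0.1]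
      intro s hs t ht hst
      rcases le_total s 1 with h | h <;> rcases le_total t 1 with h' | h'
      · have b1 : s ∈ Icc (0 : ℝ) 1 := ⟨by linarith [hs.1], h⟩
        have b2 : t ∈ Icc (0 : ℝ) 1 := ⟨by linarith [ht.1], h'⟩
        rw [B0 s b1, B0 t b2] at hst
        have c1 := rb0 s b1
        have c2 := rb0 t b2
        have c3 := F.inj 0 ⟨c1.1, le_trans c1.2 jp0.2⟩ ⟨c2.1, le_trans c2.2 jp0.2⟩ hst
        have c4 : (s - t) * p0 = 0 := by linarith
        rcases mul_eq_zero.1 c4 with c5 | c5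
        · linarith
        · linarith [ip0.1]
      · exact key s ⟨by linarith [hs.1], h⟩ t ⟨h', by linarith [ht.2]⟩ hst
      · exact (key t ⟨by linarith [ht.1], h'⟩ s ⟨h, by linarith [hs.2]⟩ hst.symm).symm
      · have b1 : s ∈ Icc (1 : ℝ) 2 := ⟨h, by linarith [hs.2]⟩
        have b2 : t ∈ Icc (1 : ℝ) 2 := ⟨h', by linarith [ht.2]⟩
        rw [B1 s b1, B1 t b2] at hst
        have c1 := rb1 s b1
        have c2 := rb1 t b2
        have c3 := F.inj 1 ⟨le_trans jp1.1 c1.1, c1.2⟩ ⟨le_trans jp1.1 c2.1, c2.2⟩ hst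
        have c4 : (s - t) * (1 - p1) = 0 := by linarith
        rcases mul_eq_zero.1 c4 with c5 | c5
        · linarith
        · linarith [ip1.2]
    · left
      constructor
      · intro s hs
        have b1 : s ∈ Icc (0 : ℝ) 1 := ⟨by linarith [hs.1], hs.2⟩
        rw [A0 s b1]
        have c1 := ra0 s b1
        exact F.mem 0 _ ⟨le_trans jp0.1 c1.1, c1.2⟩
      · intro s hs
        have b1 : s ∈ Icc (1 : ℝ) 2 := ⟨hs.1, by linarith [hs.2]⟩
        rw [A1 s b1]
        have c1 := ra1 s b1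
        exact F.mem 1 _ ⟨c1.1, le_trans c1.2 jp1.2⟩
    · left
      constructor
      · intro s hs
        have b1 : s ∈ Icc (0 : ℝ) 1 := ⟨by linarith [hs.1], hs.2⟩
        rw [B0 s b1]
        have c1 := rb0 s b1
        exact F.mem 0 _ ⟨c1.1, le_trans c1.2 jp0.2⟩
      · intro s hs
        have b1 : s ∈ Icc (1 : ℝ) 2 := ⟨hs.1, by linarith [hs.2]⟩
        rw [B1 s b1]
        have c1 := rb1 s b1
        exact F.mem 1 _ ⟨le_trans jp1.1 c1.1, c1.2⟩
    · rw [A0 1 ⟨zero_le_one, le_rfl⟩]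
      congr 1
      ring
    · rw [B0 1 ⟨zero_le_one, le_rfl⟩]
      congr 1
      ring
    · intro s hs t ht hst
      rcases cov s ⟨by linarith [hs.1], by linarith [hs.2]⟩ t
        ⟨by linarith [ht.1], by linarith [ht.2]⟩ hst with h | h
      · exact h
      · linarith [hs.2, iq2.1, h.1]
  have z2 : ZLoc A B (2 + q2) (3 - q3) 1 := by
    obtain ⟨δ, hδ, d1, d2, d3, d4⟩ : ∃ δ : ℝ, 0 < δ ∧ δ ≤ q2 ∧ δ ≤ 1 - q2 ∧ δ ≤ q3 ∧
        δ ≤ 1 - q3 := by
      refine ⟨min (min q2 (1 - q2)) (min q3 (1 - q3)), ?_, ?_, ?_, ?_, ?_⟩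
      · refine lt_min (lt_min iq2.1 ?_) (lt_min iq3.1 ?_)
        · linarith [iq2.2]
        · linarith [iq3.2]
      · exact le_trans (min_le_left _ _) (min_le_left _ _)
      · exact le_trans (min_le_left _ _) (min_le_right _ _)
      · exact le_trans (min_le_right _ _) (min_le_left _ _)
      · exact le_trans (min_le_right _ _) (min_le_right _ _)
    obtain ⟨a1, a2, a3⟩ := hA.mem_piece (D.arc s(src 2, tgt 2)) 2 (by norm_num) (by
        intro s hs
        change s ∈ uIcc (0 : ℝ) 1 at hs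
        rw [uIcc_of_le zero_le_one] at hs
        exact F.mem 2 s hs) (2 + q2) δ (by push_cast; linarith) (by push_cast; linarith)
    obtain ⟨b1, b2, b3⟩ := hB.mem_piece (D.arc s(src 3, tgt 3)) 2 (by norm_num) (by
        intro s hs
        change s ∈ uIcc (1 : ℝ) 0 at hs
        rw [uIcc_of_ge zero_le_one] at hs
        exact F.mem 3 s hs) (3 - q3) δ (by push_cast; linarith) (by push_cast; linarith)
    refine hLC1 _ _ (γ 2 q2) ?_ A B _ _ δ hδ a1 b1 a2 b2 a3 b3 ?_ ?_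
    · rw [hq2]; exact F.proper 2 3 n23 hY
    · rw [A2 _ ⟨by linarith [iq2.1], by linarith [iq2.2]⟩]
      congr 1
      ring
    · rw [B2 _ ⟨by linarith [iq3.2], by linarith [iq3.1]⟩, eQ]
      congr 1
      ring
  have fin := hPAR A B 3 3 {((1 : ℝ), (1 : ℝ)), (2 + q2, 3 - q3)}
    (fun z => if z.1 = 1 then 0 else 1) (by norm_num) (by norm_num)
    (by have := hA.crv_cont; simpa using this) (by have := hB.crv_cont; simpa using this)
    (by have := hA.crv_closed; simpa using this) (by have := hB.crv_closed; simpa using this)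
    (by
      intro s hs t ht hst
      rcases cov s hs t ht hst with h | h
      · rw [h.1, h.2]; simp
      · rw [h.1, h.2]; simp)
    (by
      intro z hz
      rw [Finset.mem_insert, Finset.mem_singleton] at hz
      rcases hz with rfl | rfl
      · simp only [if_true]
        exact ⟨⟨by norm_num, by norm_num⟩, ⟨by norm_num, by norm_num⟩, z1⟩
      · have hne : (2 : ℝ) + q2 ≠ 1 := by linarith [iq2.1]
        simp only [hne, if_false]
        exact ⟨⟨by linarith [iq2.1], by linarith [iq2.2]⟩,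
          ⟨by linarith [iq3.2], by linarith [iq3.1]⟩, z2⟩)
  have hne : (2 : ℝ) + q2 ≠ 1 := by linarith [iq2.1]
  rw [Finset.sum_pair (by
    intro h
    exact hne (congrArg Prod.fst h).symm)] at fin
  simp only [if_true, hne, if_false] at fin
  exact absurd fin (by decide)

/-- In a drawing of a graph with a 4-cycle, at most one of the two pairs of opposite edges
crosses. -/
theorem cc4 (hPAR : S_PAR) (hLC1 : S_LC1) (hLC2 : S_LC2) (V : Type) (G : SimpleGraph V)
    (D : Drawing G) (x y z t : V) (hxy : G.Adj x y) (hyz : G.Adj y z) (hzt : G.Adj z t)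
    (htx : G.Adj t x) (hxz : x ≠ z) (hyt : y ≠ t) :
    ¬ (D.Crosses s(x, y) s(z, t) ∧ D.Crosses s(z, y) s(x, t)) := by
  rintro ⟨h1, h2⟩
  have e1 := hxy.ne
  have e2 := hyz.ne
  have e3 := hzt.ne
  obtain ⟨γ, F⟩ := exists_fam D (![x, z, z, x] : Fin 4 → V) (![y, t, y, t] : Fin 4 → V)
    (by
      intro i
      fin_cases i
      · exact hxy
      · exact hzt
      · exact hyz.symm
      · exact htx.symm)
    (by
      have key : ∀ i j : Fin 4, i < j →
          s((![x, z, z, x] : Fin 4 → V) i, (![y, t, y, t] : Fin 4 → V) i) ≠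
          s((![x, z, z, x] : Fin 4 → V) j, (![y, t, y, t] : Fin 4 → V) j) := by
        intro i j hij h
        rw [Sym2.eq_iff] at h
        fin_cases i <;> fin_cases j <;> first
          | (exfalso; revert hij; decide)
          | (rcases h with ⟨ha, hb⟩ | ⟨ha, hb⟩ <;> simp at ha hb <;> first
              | exact hxz ha | exact hxz ha.symm | exact hxz hb | exact hxz hb.symm
              | exact hyt ha | exact hyt ha.symm | exact hyt hb | exact hyt hb.symm
              | exact e1 ha | exact e1 ha.symm | exact e1 hb | exact e1 hb.symm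
              | exact e2 ha | exact e2 ha.symm | exact e2 hb | exact e2 hb.symm
              | exact e3 ha)
      intro i j hij
      rcases lt_or_gt_of_ne hij with h | h
      · exact key i j h
      · exact (key j i h).symm)
  exact four hPAR hLC1 hLC2 D _ _ γ F rfl rfl rfl rfl h1 h2

end Pool.FFL
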