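import Pool.Agent.H96.FFB.Parity

/-!
# Parameters on the edges of a drawing (MP_ffb5eb_co)
-/

set_option autoImplicit false

namespace Pool.FFL

open Set Pool.MCR Pool.MXT

variable {V I : Type} {G : SimpleGraph V}

/-- `γ i` is a parametrization of the edge `s(src i, tgt i)`, from `src i` to `tgt i`. -/
structure Fam (D : Drawing G) (src tgt : I → V) (γ : I → ℝ → ℝ × ℝ) : Prop where
  adj : ∀ i, G.Adj (src i) (tgt i)
  ne : ∀ i j, i ≠ j → s(src i, tgt i) ≠ s(src j, tgt j)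
  cont : ∀ i, Continuous (γ i)
  inj : ∀ i, InjOn (γ i) (Icc 0 1)
  zero : ∀ i, γ i 0 = D.pos (src i)
  one : ∀ i, γ i 1 = D.pos (tgt i)
  mem : ∀ i, ∀ s ∈ Icc (0 : ℝ) 1, γ i s ∈ D.arc s(src i, tgt i)
  surj : ∀ i, ∀ p ∈ D.arc s(src i, tgt i), ∃ s ∈ Icc (0 : ℝ) 1, γ i s = p

theorem exists_fam (D : Drawing G) (src tgt : I → V) (adj : ∀ i, G.Adj (src i) (tgt i))
    (ne : ∀ i j, i ≠ j → s(src i, tgt i) ≠ s(src j, tgt j)) :
    ∃ γ : I → ℝ → ℝ × ℝ, Fam D src tgt γ := by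
  have h : ∀ i, ∃ g : Path (D.pos (src i)) (D.pos (tgt i)), Function.Injective g ∧
      Set.range g = D.arc s(src i, tgt i) := fun i => D.arc_curve _ _ (adj i)
  choose g hg1 hg2 using h
  refine ⟨fun i => (g i).extend, adj, ne, fun i => (g i).continuous_extend, ?_, ?_, ?_, ?_, ?_⟩
  · intro i s hs t ht hst
    rw [(g i).extend_apply hs, (g i).extend_apply ht] at hst
    have := hg1 i hst
    simpa using this
  · intro i
    exact (g i).extend_zero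
  · intro i
    exact (g i).extend_one
  · intro i s hs
    rw [(g i).extend_apply hs, ← hg2 i]
    exact ⟨_, rfl⟩
  · intro i p hp
    rw [← hg2 i] at hp
    obtain ⟨s, rfl⟩ := hp
    exact ⟨s, s.2, (g i).extend_apply s.2⟩

/-- The curves `i` and `j` have a common point. -/
def Meet (γ : I → ℝ → ℝ × ℝ) (i j : I) : Prop :=
  ∃ s ∈ Icc (0 : ℝ) 1, ∃ t ∈ Icc (0 : ℝ) 1, γ i s = γ j t

open Classical in
/-- The parameter on the curve `i` of the common point with the curve `j`. -/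
noncomputable def ps (γ : I → ℝ → ℝ × ℝ) (i j : I) : ℝ :=
  if h : Meet γ i j then h.choose else 0

theorem Meet.symm {γ : I → ℝ → ℝ × ℝ} {i j : I} (h : Meet γ i j) : Meet γ j i := by
  obtain ⟨s, hs, t, ht, hst⟩ := h
  exact ⟨t, ht, s, hs, hst.symm⟩

theorem ps_mem (γ : I → ℝ → ℝ × ℝ) (i j : I) : ps γ i j ∈ Icc (0 : ℝ) 1 := by
  unfold ps
  split_ifs with h
  · exact h.choose_spec.1
  · exact ⟨le_rfl, zero_le_one⟩

section
variable {D : Drawing G} {src tgt : I → V} {γ : I → ℝ → ℝ × ℝ}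

/-- two different edges have one common point, with one parameter on each. -/
theorem Fam.uniq (F : Fam D src tgt γ) (i j : I) (hij : i ≠ j) (s t s' t' : ℝ)
    (hs : s ∈ Icc (0 : ℝ) 1) (ht : t ∈ Icc (0 : ℝ) 1) (hs' : s' ∈ Icc (0 : ℝ) 1)
    (ht' : t' ∈ Icc (0 : ℝ) 1) (h : γ i s = γ j t) (h' : γ i s' = γ j t') : s = s' ∧ t = t' := by
  have h1 : γ i s = γ i s' := by
    refine D.arc_inter _ ((G.mem_edgeSet).2 (F.adj i)) _ ((G.mem_edgeSet).2 (F.adj j))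
      (F.ne i j hij) ⟨F.mem i s hs, ?_⟩ ⟨F.mem i s' hs', ?_⟩
    · rw [h]; exact F.mem j t ht
    · rw [h']; exact F.mem j t' ht'
  have h2 : s = s' := F.inj i hs hs' h1
  refine ⟨h2, F.inj j ht ht' ?_⟩
  rw [← h, ← h', h1]

theorem Fam.ps_eq (F : Fam D src tgt γ) (i j : I) (hij : i ≠ j) (s t : ℝ)
    (hs : s ∈ Icc (0 : ℝ) 1) (ht : t ∈ Icc (0 : ℝ) 1) (h : γ i s = γ j t) : ps γ i j = s := by
  have hm : Meet γ i j := ⟨s, hs, t, ht, h⟩
  unfold ps
  rw [dif_pos hm]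
  obtain ⟨h1, t', ht', h2⟩ := hm.choose_spec
  exact (F.uniq i j hij _ _ _ _ h1 ht' hs ht h2 h).1

theorem Fam.ps_eq' (F : Fam D src tgt γ) (i j : I) (hij : i ≠ j) (s t : ℝ)
    (hs : s ∈ Icc (0 : ℝ) 1) (ht : t ∈ Icc (0 : ℝ) 1) (h : γ i s = γ j t) : ps γ j i = t :=
  F.ps_eq j i hij.symm t s ht hs h.symm

theorem Fam.ps_pt (F : Fam D src tgt γ) (i j : I) (hij : i ≠ j) (hm : Meet γ i j) :
    γ i (ps γ i j) = γ j (ps γ j i) := by
  obtain ⟨s, hs, t, ht, h⟩ := hm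
  rw [F.ps_eq i j hij s t hs ht h, F.ps_eq' i j hij s t hs ht h, h]

/-- The edges `i` and `j` cross. -/
def XX (D : Drawing G) (src tgt : I → V) (i j : I) : Prop :=
  D.Crosses s(src i, tgt i) s(src j, tgt j)

/-- The edges `i` and `j` have a common end. -/
def Adjc (src tgt : I → V) (i j : I) : Prop :=
  src i = src j ∨ src i = tgt j ∨ tgt i = src j ∨ tgt i = tgt j

theorem XX.symm {i j : I} (h : XX D src tgt i j) : XX D src tgt j i := by
  obtain ⟨p, h1, h2, h3⟩ := h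
  exact ⟨p, h2, h1, h3⟩

theorem Fam.meet_of_XX (F : Fam D src tgt γ) {i j : I} (h : XX D src tgt i j) : Meet γ i j := by
  obtain ⟨p, h1, h2, -⟩ := h
  obtain ⟨s, hs, h3⟩ := F.surj i p h1
  obtain ⟨t, ht, h4⟩ := F.surj j p h2
  exact ⟨s, hs, t, ht, by rw [h3, h4]⟩

theorem Fam.XX_pt (F : Fam D src tgt γ) {i j : I} (hij : i ≠ j) (h : XX D src tgt i j) :
    γ i (ps γ i j) ∉ Set.range D.pos := by
  obtain ⟨p, h1, h2, h5⟩ := h
  obtain ⟨s, hs, h3⟩ := F.surj i p h1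
  obtain ⟨t, ht, h4⟩ := F.surj j p h2
  rw [F.ps_eq i j hij s t hs ht (by rw [h3, h4]), h3]
  exact h5

theorem Fam.XX_iff (F : Fam D src tgt γ) {i j : I} (hij : i ≠ j) (hm : Meet γ i j) :
    XX D src tgt i j ↔ γ i (ps γ i j) ∉ Set.range D.pos := by
  refine ⟨F.XX_pt hij, fun h => ⟨_, F.mem i _ (ps_mem γ i j), ?_, h⟩⟩
  rw [F.ps_pt i j hij hm]
  exact F.mem j _ (ps_mem γ j i)

theorem Fam.XX_mem (F : Fam D src tgt γ) {i j : I} (hij : i ≠ j) (h : XX D src tgt i j) :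
    ps γ i j ∈ Ioo (0 : ℝ) 1 := by
  have h1 := F.XX_pt hij h
  have h2 := ps_mem γ i j
  refine ⟨lt_of_le_of_ne h2.1 ?_, lt_of_le_of_ne h2.2 ?_⟩
  · intro h3
    rw [← h3, F.zero] at h1
    exact h1 ⟨_, rfl⟩
  · intro h3
    rw [h3, F.one] at h1
    exact h1 ⟨_, rfl⟩

theorem Fam.vert (F : Fam D src tgt γ) (i : I) (s : ℝ) (hs : s ∈ Icc (0 : ℝ) 1) (w : V)
    (h : γ i s = D.pos w) : (w = src i ∧ s = 0) ∨ (w = tgt i ∧ s = 1) := by
  have h1 : D.pos w ∈ D.arc s(src i, tgt i) := by rw [← h]; exact F.mem i s hs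
  rcases D.arc_vertex _ _ _ (F.adj i) h1 with h2 | h2
  · left
    refine ⟨h2, F.inj i hs ⟨le_rfl, zero_le_one⟩ ?_⟩
    rw [h, h2, F.zero]
  · right
    refine ⟨h2, F.inj i hs ⟨zero_le_one, le_rfl⟩ ?_⟩
    rw [h, h2, F.one]

theorem Fam.common (F : Fam D src tgt γ) (i j : I) (hij : i ≠ j) (w : V)
    (hi : w = src i ∨ w = tgt i) (hj : w = src j ∨ w = tgt j) :
    Meet γ i j ∧ γ i (ps γ i j) = D.pos w := by
  have key : ∀ k, (w = src k ∨ w = tgt k) → ∃ s ∈ Icc (0 : ℝ) 1, γ k s = D.pos w := by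
    intro k hk
    rcases hk with h | h
    · exact ⟨0, ⟨le_rfl, zero_le_one⟩, by rw [F.zero, h]⟩
    · exact ⟨1, ⟨zero_le_one, le_rfl⟩, by rw [F.one, h]⟩
  obtain ⟨s, hs, h1⟩ := key i hi
  obtain ⟨t, ht, h2⟩ := key j hj
  refine ⟨⟨s, hs, t, ht, by rw [h1, h2]⟩, ?_⟩
  rw [F.ps_eq i j hij s t hs ht (by rw [h1, h2]), h1]

theorem Fam.meet_iff (F : Fam D src tgt γ) (i j : I) (hij : i ≠ j) :
    Meet γ i j ↔ (Adjc src tgt i j ∨ XX D src tgt i j) := by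
  constructor
  · intro h
    by_cases hX : XX D src tgt i j
    · exact Or.inr hX
    · left
      rw [F.XX_iff hij h, not_not] at hX
      obtain ⟨w, hw⟩ := hX
      have h1 := F.vert i _ (ps_mem γ i j) w hw.symm
      have h2 := F.vert j _ (ps_mem γ j i) w (by rw [← F.ps_pt i j hij h, hw])
      unfold Adjc
      rcases h1 with ⟨h1, -⟩ | ⟨h1, -⟩ <;> rcases h2 with ⟨h2, -⟩ | ⟨h2, -⟩
      · left; rw [← h1, ← h2]
      · right; left; rw [← h1, ← h2]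
      · right; right; left; rw [← h1, ← h2]
      · right; right; right; rw [← h1, ← h2]
  · rintro (h | h)
    · rcases h with h | h | h | h
      · exact (F.common i j hij (src i) (Or.inl rfl) (Or.inl h)).1
      · exact (F.common i j hij (src i) (Or.inl rfl) (Or.inr h)).1
      · exact (F.common i j hij (tgt i) (Or.inr rfl) (Or.inl h)).1
      · exact (F.common i j hij (tgt i) (Or.inr rfl) (Or.inr h)).1
    · exact F.meet_of_XX h

theorem Fam.ps_zero (F : Fam D src tgt γ) (i j : I) (hij : i ≠ j)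
    (h : src i = src j ∨ src i = tgt j) : ps γ i j = 0 := by
  obtain ⟨h1, h2⟩ := F.common i j hij (src i) (Or.inl rfl) h
  exact F.inj i (ps_mem γ i j) ⟨le_rfl, zero_le_one⟩ (by rw [h2, F.zero])

theorem Fam.ps_one (F : Fam D src tgt γ) (i j : I) (hij : i ≠ j)
    (h : tgt i = src j ∨ tgt i = tgt j) : ps γ i j = 1 := by
  obtain ⟨h1, h2⟩ := F.common i j hij (tgt i) (Or.inr rfl) h
  exact F.inj i (ps_mem γ i j) ⟨zero_le_one, le_rfl⟩ (by rw [h2, F.one])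

theorem Fam.XX_ne (F : Fam D src tgt γ) (i j k : I) (hij : i ≠ j) (hik : i ≠ k) (hjk : j ≠ k)
    (hj : XX D src tgt i j) (hk : Meet γ i k) : ps γ i j ≠ ps γ i k := by
  intro h
  have h1 := F.XX_pt hij hj
  refine h1 (D.arc_triple _ ((G.mem_edgeSet).2 (F.adj i)) _ ((G.mem_edgeSet).2 (F.adj j)) _
    ((G.mem_edgeSet).2 (F.adj k)) (F.ne i j hij) (F.ne i k hik) (F.ne j k hjk) _
    (F.mem i _ (ps_mem γ i j)) ?_ ?_)
  · rw [F.ps_pt i j hij (F.meet_of_XX hj)]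
    exact F.mem j _ (ps_mem γ j i)
  · rw [h, F.ps_pt i k hik hk]
    exact F.mem k _ (ps_mem γ k i)

theorem Fam.not_adjc_of_XX (F : Fam D src tgt γ) (i j : I) (hij : i ≠ j)
    (h : XX D src tgt i j) : ¬ Adjc src tgt i j := by
  intro h1
  have h2 := F.XX_pt hij h
  rcases h1 with h1 | h1 | h1 | h1
  · exact h2 ⟨_, ((F.common i j hij (src i) (Or.inl rfl) (Or.inl h1)).2).symm⟩
  · exact h2 ⟨_, ((F.common i j hij (src i) (Or.inl rfl) (Or.inr h1)).2).symm⟩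
  · exact h2 ⟨_, ((F.common i j hij (tgt i) (Or.inr rfl) (Or.inl h1)).2).symm⟩
  · exact h2 ⟨_, ((F.common i j hij (tgt i) (Or.inr rfl) (Or.inr h1)).2).symm⟩

theorem Fam.proper (F : Fam D src tgt γ) (i j : I) (hij : i ≠ j) (h : XX D src tgt i j) :
    ProperCrossing (D.arc s(src i, tgt i)) (D.arc s(src j, tgt j)) (γ i (ps γ i j)) := by
  refine D.arc_proper _ ((G.mem_edgeSet).2 (F.adj i)) _ ((G.mem_edgeSet).2 (F.adj j))
    (F.ne i j hij) _ (F.mem i _ (ps_mem γ i j)) ?_ (F.XX_pt hij h)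
  rw [F.ps_pt i j hij (F.meet_of_XX h)]
  exact F.mem j _ (ps_mem γ j i)

end

end Pool.FFL
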