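import Pool.Agent.H96.FFB.Layer

/-!
# Pairs of triangles of edge pieces cross evenly (MP_ffb5eb_co)
-/

set_option autoImplicit false

namespace Pool.FFL

open Set Pool.MCR Pool.MXT

variable {V I : Type} {G : SimpleGraph V}

/-- the vertex `w` is an end of the edge `i`. -/
def EndOf (src tgt : I → V) (w : V) (i : I) : Prop := w = src i ∨ w = tgt i

/-- start of the `i`-th piece of the triangle `a`. -/
noncomputable def ua (γ : I → ℝ → ℝ × ℝ) (a : Fin 3 → I) (i : Fin 3) : ℝ := ps γ (a i) (a (i - 1))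

/-- end of the `i`-th piece of the triangle `a`. -/
noncomputable def va (γ : I → ℝ → ℝ × ℝ) (a : Fin 3 → I) (i : Fin 3) : ℝ := ps γ (a i) (a (i + 1))

/-- A triangle: three different pairwise meeting edges, the meeting points on every edge are
different. -/
structure Tri (γ : I → ℝ → ℝ × ℝ) (a : Fin 3 → I) : Prop where
  inj : Function.Injective a
  meet : ∀ i, Meet γ (a i) (a (i + 1))
  ne : ∀ i, ua γ a i ≠ va γ a i

section
variable {D : Drawing G} {src tgt : I → V} {γ : I → ℝ → ℝ × ℝ}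

theorem ne_succ {a : Fin 3 → I} (h : Function.Injective a) (i : Fin 3) : a i ≠ a (i + 1) := by
  intro h1
  have h2 := h h1
  revert h2
  fin_cases i <;> decide

theorem ne_pred {a : Fin 3 → I} (h : Function.Injective a) (i : Fin 3) : a i ≠ a (i - 1) := by
  intro h1
  have h2 := h h1
  revert h2
  fin_cases i <;> decide

theorem Tri.meet' {a : Fin 3 → I} (T : Tri γ a) (i : Fin 3) : Meet γ (a i) (a (i - 1)) := by
  have h := T.meet (i - 1)
  rw [sub_add_cancel] at h
  exact h.symm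

theorem ua_mem (γ : I → ℝ → ℝ × ℝ) (a : Fin 3 → I) (i : Fin 3) : ua γ a i ∈ Icc (0 : ℝ) 1 :=
  ps_mem _ _ _

theorem va_mem (γ : I → ℝ → ℝ × ℝ) (a : Fin 3 → I) (i : Fin 3) : va γ a i ∈ Icc (0 : ℝ) 1 :=
  ps_mem _ _ _

theorem seg_sub (γ : I → ℝ → ℝ × ℝ) (a : Fin 3 → I) (i : Fin 3) (s : ℝ)
    (hs : s ∈ uIcc (ua γ a i) (va γ a i)) : s ∈ Icc (0 : ℝ) 1 := by
  have h1 := ua_mem γ a i
  have h2 := va_mem γ a i
  rw [mem_uIcc] at hs
  rcases hs with hs | hs
  · exact ⟨le_trans h1.1 hs.1, le_trans hs.2 h2.2⟩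
  · exact ⟨le_trans h2.1 hs.1, le_trans hs.2 h1.2⟩

/-- a point of a piece that is a vertex is a corner. -/
theorem Fam.corner (F : Fam D src tgt γ) {a : Fin 3 → I} (T : Tri γ a) (i : Fin 3) (s : ℝ)
    (hs : s ∈ uIcc (ua γ a i) (va γ a i)) (w : V) (h : γ (a i) s = D.pos w) :
    ∃ k : Fin 3, EndOf src tgt w (a k) ∧ EndOf src tgt w (a (k + 1)) := by
  have h01 := seg_sub γ a i s hs
  have hv := F.vert (a i) s h01 w h
  have hend : EndOf src tgt w (a i) := by
    rcases hv with hv | hv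
    · exact Or.inl hv.1
    · exact Or.inr hv.1
  have hsc : s = ua γ a i ∨ s = va γ a i := by
    have h1 := ua_mem γ a i
    have h2 := va_mem γ a i
    rw [mem_uIcc] at hs
    rcases hv with ⟨-, hv⟩ | ⟨-, hv⟩
    · rcases hs with hs | hs
      · left; linarith [h1.1, hs.1]
      · right; linarith [h2.1, hs.1]
    · rcases hs with hs | hs
      · right; linarith [h2.2, hs.2]
      · left; linarith [h1.2, hs.2]
  rcases hsc with hsc | hsc
  · refine ⟨i - 1, ?_, ?_⟩
    · have h3 : γ (a (i - 1)) (ps γ (a (i - 1)) (a i)) = D.pos w := by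
        rw [← F.ps_pt (a i) (a (i - 1)) (ne_pred T.inj i) (T.meet' i), ← h, hsc]
        rfl
      rcases F.vert _ _ (ps_mem _ _ _) w h3 with h4 | h4
      · exact Or.inl h4.1
      · exact Or.inr h4.1
    · rw [sub_add_cancel]
      exact hend
  · refine ⟨i, hend, ?_⟩
    have h3 : γ (a (i + 1)) (ps γ (a (i + 1)) (a i)) = D.pos w := by
      rw [← F.ps_pt (a i) (a (i + 1)) (ne_succ T.inj i) (T.meet i), ← h, hsc]
      rfl
    rcases F.vert _ _ (ps_mem _ _ _) w h3 with h4 | h4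
    · exact Or.inl h4.1
    · exact Or.inr h4.1

/-- a common point that is a crossing is not a corner of the first triangle. -/
theorem Fam.side (F : Fam D src tgt γ) {a b : Fin 3 → I} (Ta : Tri γ a)
    (hdis : ∀ i j, a i = b j → ∀ s, s ∈ uIcc (ua γ a i) (va γ a i) →
      s ∈ uIcc (ua γ b j) (va γ b j) → False)
    (i j : Fin 3) (hij : a i ≠ b j) (s t : ℝ) (hs : s ∈ uIcc (ua γ a i) (va γ a i))
    (ht : t ∈ uIcc (ua γ b j) (va γ b j)) (h : γ (a i) s = γ (b j) t)
    (hX : XX D src tgt (a i) (b j)) : s ≠ ua γ a i ∧ s ≠ va γ a i := by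
  have e1 : ps γ (a i) (b j) = s :=
    F.ps_eq _ _ hij s t (seg_sub γ a i s hs) (seg_sub γ b j t ht) h
  have e2 : ps γ (b j) (a i) = t :=
    F.ps_eq' _ _ hij s t (seg_sub γ a i s hs) (seg_sub γ b j t ht) h
  constructor
  · intro h1
    by_cases h2 : b j = a (i - 1)
    · refine hdis (i - 1) j h2.symm t ?_ ht
      have h3 : va γ a (i - 1) = t := by
        unfold va
        rw [sub_add_cancel, ← h2]
        exact e2
      rw [← h3]
      exact right_mem_uIcc
    · refine F.XX_ne (a i) (b j) (a (i - 1)) hij (ne_pred Ta.inj i) h2 hX (Ta.meet' i) ?_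
      rw [e1, h1]
      rfl
  · intro h1
    by_cases h2 : b j = a (i + 1)
    · refine hdis (i + 1) j h2.symm t ?_ ht
      have h3 : ua γ a (i + 1) = t := by
        unfold ua
        rw [add_sub_cancel_right, ← h2]
        exact e2
      rw [← h3]
      exact left_mem_uIcc
    · refine F.XX_ne (a i) (b j) (a (i + 1)) hij (ne_succ Ta.inj i) h2 hX (Ta.meet i) ?_
      rw [e1, h1]
      rfl

theorem btw_of_mem (x y s : ℝ) (hs : s ∈ uIcc x y) (h1 : s ≠ x) (h2 : s ≠ y) : Btw x y s := by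
  rw [mem_uIcc] at hs
  rcases hs with hs | hs
  · exact Or.inl ⟨lt_of_le_of_ne hs.1 (Ne.symm h1), lt_of_le_of_ne hs.2 h2⟩
  · exact Or.inr ⟨lt_of_le_of_ne hs.1 (Ne.symm h2), lt_of_le_of_ne hs.2 h1⟩

/-- a natural number modulo three. -/
def f3 (k : ℕ) : Fin 3 := ⟨k % 3, Nat.mod_lt _ (by norm_num)⟩

theorem f3_val (i : Fin 3) : f3 (i : ℕ) = i := Fin.ext (Nat.mod_eq_of_lt i.2)

theorem f3_succ (k : ℕ) : f3 (k + 1) = f3 k + 1 := by
  apply Fin.ext
  simp only [f3, Fin.val_add, Fin.val_one]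
  omega

theorem Fam.wk (F : Fam D src tgt γ) {a : Fin 3 → I} (T : Tri γ a) :
    Wk 3 (fun k => γ (a (f3 k))) (fun k => ua γ a (f3 k))
      (fun k => va γ a (f3 k)) where
  pos := by norm_num
  cont := fun k _ => F.cont _
  inj := fun k _ => (F.inj _).mono (fun s hs => seg_sub γ a _ s hs)
  ne := fun k _ => T.ne _
  step := by
    intro k _
    have h := F.ps_pt _ _ (ne_succ T.inj (f3 k)) (T.meet (f3 k))
    have h1 : f3 (k + 1) = (f3 k) + 1 := f3_succ k
    simp only [h1]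
    unfold ua va
    rw [h, add_sub_cancel_right]
  close := by
    have h := F.ps_pt _ _ (ne_succ T.inj (2 : Fin 3)) (T.meet (2 : Fin 3))
    exact h

open Classical in
/-- Two triangles of edge pieces cross evenly. -/
theorem Fam.par3 (hPAR : S_PAR) (hLC1 : S_LC1) (F : Fam D src tgt γ) (a b : Fin 3 → I)
    (Ta : Tri γ a) (Tb : Tri γ b)
    (hdis : ∀ i j, a i = b j → ∀ s, s ∈ uIcc (ua γ a i) (va γ a i) →
      s ∈ uIcc (ua γ b j) (va γ b j) → False)
    (hcor : ∀ i j w, EndOf src tgt w (a i) → EndOf src tgt w (a (i + 1)) →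
      EndOf src tgt w (b j) → EndOf src tgt w (b (j + 1)) → False) :
    Even (∑ i : Fin 3, ∑ j : Fin 3,
      if (a i ≠ b j ∧ XX D src tgt (a i) (b j)) ∧ Btw (ua γ a i) (va γ a i) (ps γ (a i) (b j)) ∧
        Btw (ua γ b j) (va γ b j) (ps γ (b j) (a i)) then 1 else 0) := by
  have key := parity hPAR hLC1 (F.wk Ta) (F.wk Tb)
    (fun i j => (a (f3 i) ≠ b (f3 j) ∧ XX D src tgt (a (f3 i)) (b (f3 j))) ∧
      Btw (ua γ a (f3 i)) (va γ a (f3 i)) (ps γ (a (f3 i)) (b (f3 j))) ∧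
      Btw (ua γ b (f3 j)) (va γ b (f3 j)) (ps γ (b (f3 j)) (a (f3 i))))
    (fun i j => ps γ (a (f3 i)) (b (f3 j)))
    (fun i j => ps γ (b (f3 j)) (a (f3 i)))
    (fun i => D.arc s(src (a (f3 i)), tgt (a (f3 i))))
    (fun j => D.arc s(src (b (f3 j)), tgt (b (f3 j))))
    (fun i _ s hs => F.mem _ _ (seg_sub γ a _ s hs))
    (fun j _ t ht => F.mem _ _ (seg_sub γ b _ t ht))
    ?_ ?_
  · rw [Finset.sum_range] at key
    simp only [Finset.sum_range, f3_val] at key
    exact key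
  · rintro i _ j _ ⟨⟨h1, h2⟩, h3, h4⟩
    exact ⟨h3, h4, F.ps_pt _ _ h1 (F.meet_of_XX h2), F.proper _ _ h1 h2⟩
  · intro i _ j _ s hs t ht h
    generalize f3 i = i' at *
    generalize f3 j = j' at *
    have hs1 := seg_sub γ a _ s hs
    have ht1 := seg_sub γ b _ t ht
    have hne : a i' ≠ b j' := by
      intro hab
      have hst : s = t := by
        refine F.inj (b j') ?_ ht1 ?_
        · exact hs1
        · rw [← h, hab]
      exact hdis _ _ hab s hs (by rw [hst]; exact ht)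
    have hmt : Meet γ (a i') (b j') := ⟨s, hs1, t, ht1, h⟩
    have e1 : ps γ (a i') (b j') = s := F.ps_eq _ _ hne s t hs1 ht1 h
    have e2 : ps γ (b j') (a i') = t := F.ps_eq' _ _ hne s t hs1 ht1 h
    have hX : XX D src tgt (a i') (b j') := by
      rw [F.XX_iff hne hmt]
      rintro ⟨w, hw⟩
      rw [e1] at hw
      obtain ⟨k, hk1, hk2⟩ := F.corner Ta _ s hs w hw.symm
      obtain ⟨l, hl1, hl2⟩ := F.corner Tb _ t ht w (by rw [← h, hw])
      exact hcor k l w hk1 hk2 hl1 hl2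
    obtain ⟨n1, n2⟩ := F.side Ta hdis i' j' hne s t hs ht h hX
    obtain ⟨n3, n4⟩ := F.side Tb (fun i j hij s h1 h2 => hdis j i hij.symm s h2 h1) j' i'
      hne.symm t s ht hs h.symm hX.symm
    refine ⟨⟨⟨hne, hX⟩, ?_, ?_⟩, e1.symm, e2.symm⟩
    · rw [e1]; exact btw_of_mem _ _ _ hs n1 n2
    · rw [e2]; exact btw_of_mem _ _ _ ht n3 n4

end

end Pool.FFL
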