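import Pool.Agent.H96.FFB.Walk

/-!
# Two closed walks of pieces cross evenly (MP_ffb5eb_co)
-/

set_option autoImplicit false

namespace Pool.FFL

open Set Pool.MCR Pool.MXT

theorem ioo_sub (m i : ℕ) (hi : i < m) (s : ℝ) (hs : s ∈ Ioo (i : ℝ) (i + 1)) :
    s ∈ Ioo (0 : ℝ) m := by
  have h1 : (0 : ℝ) ≤ i := Nat.cast_nonneg i
  have h2 : ((i : ℝ) + 1) ≤ m := by exact_mod_cast hi
  exact ⟨by linarith [hs.1], by linarith [hs.2]⟩

theorem Wk.mem_piece {m : ℕ} {g : ℕ → ℝ → ℝ × ℝ} {u v : ℕ → ℝ} (h : Wk m g u v) (XS : Set (ℝ × ℝ))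
    (i : ℕ) (hi : i < m) (hX : ∀ s ∈ uIcc (u i) (v i), g i s ∈ XS) (s₀ δ : ℝ)
    (h1 : (i : ℝ) ≤ s₀ - δ) (h2 : s₀ + δ ≤ i + 1) :
    ContinuousOn (crv m g u v) (Icc (s₀ - δ) (s₀ + δ)) ∧
      InjOn (crv m g u v) (Icc (s₀ - δ) (s₀ + δ)) ∧
      ∀ s ∈ Icc (s₀ - δ) (s₀ + δ), crv m g u v s ∈ XS := by
  have hsub : ∀ s ∈ Icc (s₀ - δ) (s₀ + δ), s ∈ Icc (i : ℝ) (i + 1) := fun s hs =>
    ⟨by linarith [hs.1], by linarith [hs.2]⟩
  refine ⟨?_, ?_, ?_⟩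
  · refine h.crv_cont.mono ?_
    intro s hs
    have h3 := hsub s hs
    have h4 : (0 : ℝ) ≤ i := Nat.cast_nonneg i
    have h5 : ((i : ℝ) + 1) ≤ m := by exact_mod_cast hi
    exact ⟨by linarith [h3.1], by linarith [h3.2]⟩
  · intro s hs t ht hst
    rw [h.crv_eq i hi s (hsub s hs), h.crv_eq i hi t (hsub t ht)] at hst
    have h6 := h.inj i hi (par_mem _ _ i s (hsub s hs)) (par_mem _ _ i t (hsub t ht)) hst
    exact par_inj _ _ (h.ne i hi) i s t h6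
  · intro s hs
    rw [h.crv_eq i hi s (hsub s hs)]
    exact hX _ (par_mem _ _ i s (hsub s hs))

open Classical in
/-- Two closed walks of pieces whose only common points are proper crossings inside the pieces
cross evenly. -/
theorem parity (hPAR : S_PAR) (hLC1 : S_LC1) {m n : ℕ} {g h : ℕ → ℝ → ℝ × ℝ} {u v x y : ℕ → ℝ}
    (hA : Wk m g u v) (hB : Wk n h x y) (C : ℕ → ℕ → Prop) (c d : ℕ → ℕ → ℝ)
    (XS YS : ℕ → Set (ℝ × ℝ))
    (hX : ∀ i, i < m → ∀ s ∈ uIcc (u i) (v i), g i s ∈ XS i)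
    (hY : ∀ j, j < n → ∀ t ∈ uIcc (x j) (y j), h j t ∈ YS j)
    (hC : ∀ i, i < m → ∀ j, j < n → C i j → Btw (u i) (v i) (c i j) ∧ Btw (x j) (y j) (d i j) ∧
      g i (c i j) = h j (d i j) ∧ ProperCrossing (XS i) (YS j) (g i (c i j)))
    (hN : ∀ i, i < m → ∀ j, j < n → ∀ s ∈ uIcc (u i) (v i), ∀ t ∈ uIcc (x j) (y j),
      g i s = h j t → C i j ∧ s = c i j ∧ t = d i j) :
    Even (∑ i ∈ Finset.range m, ∑ j ∈ Finset.range n, if C i j then 1 else 0) := by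
  set S : Finset (ℕ × ℕ) := (Finset.range m ×ˢ Finset.range n).filter (fun p => C p.1 p.2)
    with hS
  set φ : ℕ × ℕ → ℝ × ℝ := fun p =>
    (ipar (u p.1) (v p.1) p.1 (c p.1 p.2), ipar (x p.2) (y p.2) p.2 (d p.1 p.2)) with hφ
  have hmem : ∀ p ∈ S, p.1 < m ∧ p.2 < n ∧ C p.1 p.2 := by
    intro p hp
    rw [hS, Finset.mem_filter, Finset.mem_product, Finset.mem_range, Finset.mem_range] at hp
    exact ⟨hp.1.1, hp.1.2, hp.2⟩
  have hio : ∀ p ∈ S, (φ p).1 ∈ Ioo (p.1 : ℝ) (p.1 + 1) ∧ (φ p).2 ∈ Ioo (p.2 : ℝ) (p.2 + 1) := by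
    intro p hp
    obtain ⟨h1, h2, h3⟩ := hmem p hp
    obtain ⟨h4, h5, -, -⟩ := hC _ h1 _ h2 h3
    exact ⟨ipar_mem _ _ _ _ h4, ipar_mem _ _ _ _ h5⟩
  have hinj : Set.InjOn φ (S : Set (ℕ × ℕ)) := by
    intro p hp q hq hpq
    have h1 := hio p hp
    have h2 := hio q hq
    rw [hpq] at h1
    have key : ∀ (a b : ℕ) (s : ℝ), s ∈ Ioo (a : ℝ) (a + 1) → s ∈ Ioo (b : ℝ) (b + 1) →
        a = b := by
      intro a b s ha hb
      have h3 : (a : ℝ) < (b : ℝ) + 1 := by linarith [ha.1, hb.2]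
      have h4 : (b : ℝ) < (a : ℝ) + 1 := by linarith [hb.1, ha.2]
      have h5 : a < b + 1 := by exact_mod_cast h3
      have h6 : b < a + 1 := by exact_mod_cast h4
      omega
    exact Prod.ext (key _ _ _ h1.1 h2.1) (key _ _ _ h1.2 h2.2)
  have hsum : (∑ i ∈ Finset.range m, ∑ j ∈ Finset.range n, if C i j then 1 else 0) =
      ∑ z ∈ S.image φ, 1 := by
    rw [Finset.sum_const, smul_eq_mul, mul_one, Finset.card_image_of_injOn hinj, hS,
      Finset.card_filter, Finset.sum_product]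
  rw [hsum]
  refine hPAR (crv m g u v) (crv n h x y) m n (S.image φ) (fun _ => 1)
    (by exact_mod_cast hA.pos) (by exact_mod_cast hB.pos) hA.crv_cont hB.crv_cont hA.crv_closed
    hB.crv_closed ?_ ?_
  · intro s hs t ht hst
    obtain ⟨i, hi, hsi⟩ := exists_piece m hA.pos s hs
    obtain ⟨j, hj, htj⟩ := exists_piece n hB.pos t ht
    rw [hA.crv_eq i hi s hsi, hB.crv_eq j hj t htj] at hst
    obtain ⟨h1, h2, h3⟩ := hN i hi j hj _ (par_mem _ _ i s hsi) _ (par_mem _ _ j t htj) hst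
    rw [Finset.mem_image]
    refine ⟨(i, j), ?_, ?_⟩
    · rw [hS, Finset.mem_filter, Finset.mem_product, Finset.mem_range, Finset.mem_range]
      exact ⟨⟨hi, hj⟩, h1⟩
    · refine Prod.ext ?_ ?_
      · refine par_inj _ _ (hA.ne i hi) i _ _ ?_
        rw [h2]
        exact par_ipar _ _ (hA.ne i hi) i _
      · refine par_inj _ _ (hB.ne j hj) j _ _ ?_
        rw [h3]
        exact par_ipar _ _ (hB.ne j hj) j _
  · intro z hz
    rw [Finset.mem_image] at hz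
    obtain ⟨p, hp, rfl⟩ := hz
    obtain ⟨h1, h2, h3⟩ := hmem p hp
    obtain ⟨h4, h5, h6, h7⟩ := hC _ h1 _ h2 h3
    obtain ⟨h8, h9⟩ := hio p hp
    refine ⟨ioo_sub m _ h1 _ h8, ioo_sub n _ h2 _ h9, ?_⟩
    set δ : ℝ := min (min ((φ p).1 - p.1) (p.1 + 1 - (φ p).1))
      (min ((φ p).2 - p.2) (p.2 + 1 - (φ p).2)) with hδ
    have hδ0 : 0 < δ := by
      rw [hδ]
      refine lt_min (lt_min ?_ ?_) (lt_min ?_ ?_)
      · linarith [h8.1]
      · linarith [h8.2]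
      · linarith [h9.1]
      · linarith [h9.2]
    have e1 : δ ≤ (φ p).1 - p.1 := le_trans (min_le_left _ _) (min_le_left _ _)
    have e2 : δ ≤ p.1 + 1 - (φ p).1 := le_trans (min_le_left _ _) (min_le_right _ _)
    have e3 : δ ≤ (φ p).2 - p.2 := le_trans (min_le_right _ _) (min_le_left _ _)
    have e4 : δ ≤ p.2 + 1 - (φ p).2 := le_trans (min_le_right _ _) (min_le_right _ _)
    obtain ⟨a1, a2, a3⟩ := hA.mem_piece (XS p.1) p.1 h1 (hX _ h1) (φ p).1 δ (by linarith)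
      (by linarith)
    obtain ⟨b1, b2, b3⟩ := hB.mem_piece (YS p.2) p.2 h2 (hY _ h2) (φ p).2 δ (by linarith)
      (by linarith)
    have v1 : crv m g u v (φ p).1 = g p.1 (c p.1 p.2) := by
      rw [hA.crv_eq p.1 h1 _ ⟨h8.1.le, h8.2.le⟩]
      simp only [hφ]
      rw [par_ipar _ _ (hA.ne _ h1)]
    have v2 : crv n h x y (φ p).2 = g p.1 (c p.1 p.2) := by
      rw [hB.crv_eq p.2 h2 _ ⟨h9.1.le, h9.2.le⟩]
      simp only [hφ]
      rw [par_ipar _ _ (hB.ne _ h2), h6]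
    exact hLC1 _ _ _ h7 _ _ _ _ δ hδ0 a1 b1 a2 b2 a3 b3 v1 v2

end Pool.FFL
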