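import Pool.Agent.H76.MXT.Stmts

/-!
# Closed curves built of pieces, and the parity lemma for them (MP_ffb5eb_co)

Everything is derived from two facts about curves in the plane (`MXT.S_PAR`, `MXT.S_LC1`).
-/

set_option autoImplicit false

namespace Pool.FFL

open Set Pool.MCR Pool.MXT

/-- A curve glued of `m` pieces, the `k`-th on `[k,k+1]`. -/
noncomputable def glue (m : ℕ) (P : ℕ → ℝ → ℝ × ℝ) (s : ℝ) : ℝ × ℝ := P (min ⌊s⌋₊ (m - 1)) s

theorem glue_eq (m : ℕ) (P : ℕ → ℝ → ℝ × ℝ)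
    (hP : ∀ k, k + 1 < m → P k (k + 1) = P (k + 1) (k + 1)) (k : ℕ) (hk : k < m) (s : ℝ)
    (hs : s ∈ Icc (k : ℝ) (k + 1)) : glue m P s = P k s := by
  rcases lt_or_eq_of_le hs.2 with h | h
  · have h1 : ⌊s⌋₊ = k := by
      rw [Nat.floor_eq_iff (le_trans (Nat.cast_nonneg k) hs.1)]
      exact ⟨hs.1, h⟩
    have h2 : min k (m - 1) = k := by omega
    simp only [glue, h1, h2]
  · subst h
    have h1 : ⌊(k : ℝ) + 1⌋₊ = k + 1 := by
      rw [Nat.floor_eq_iff (by positivity)]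
      push_cast
      exact ⟨le_refl _, by linarith⟩
    simp only [glue, h1]
    rcases Nat.lt_or_ge (k + 1) m with h2 | h2
    · have h3 : min (k + 1) (m - 1) = k + 1 := by omega
      rw [h3, ← hP k h2]
    · have h3 : min (k + 1) (m - 1) = k := by omega
      rw [h3]

theorem glue_cont (m : ℕ) (P : ℕ → ℝ → ℝ × ℝ)
    (hP : ∀ k, k + 1 < m → P k (k + 1) = P (k + 1) (k + 1)) (hc : ∀ k, k < m → Continuous (P k)) :
    ContinuousOn (glue m P) (Icc 0 (m : ℝ)) := by
  have key : ∀ k : ℕ, k ≤ m → ContinuousOn (glue m P) (Icc 0 (k : ℝ)) := by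
    intro k
    induction k with
    | zero =>
      intro _
      have : Icc (0 : ℝ) ((0 : ℕ) : ℝ) = {0} := by simp
      rw [this]
      exact continuousOn_singleton _ _
    | succ k ih =>
      intro hk
      have h1 := ih (by omega)
      have h2 : ContinuousOn (glue m P) (Icc (k : ℝ) (k + 1)) := by
        refine ContinuousOn.congr (hc k (by omega)).continuousOn ?_
        intro s hs
        exact glue_eq m P hP k (by omega) s hs
      have h3 : Icc (0 : ℝ) ((k + 1 : ℕ) : ℝ) = Icc (0 : ℝ) (k : ℝ) ∪ Icc (k : ℝ) (k + 1) := by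
        rw [Icc_union_Icc_eq_Icc (Nat.cast_nonneg k) (by linarith)]
        push_cast
        rfl
      rw [h3]
      exact h1.union_of_isClosed h2 isClosed_Icc isClosed_Icc
  exact key m le_rfl

/-- every parameter lies on some piece. -/
theorem exists_piece (m : ℕ) (hm : 0 < m) (s : ℝ) (hs : s ∈ Icc (0 : ℝ) m) :
    ∃ k, k < m ∧ s ∈ Icc (k : ℝ) (k + 1) := by
  rcases lt_or_eq_of_le hs.2 with h | h
  · refine ⟨⌊s⌋₊, ?_, Nat.floor_le hs.1, (Nat.lt_floor_add_one s).le⟩
    rw [Nat.floor_lt hs.1]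
    exact h
  · refine ⟨m - 1, by omega, ?_⟩
    have h1 : ((m - 1 : ℕ) : ℝ) = (m : ℝ) - 1 := by
      rw [Nat.cast_sub hm]; simp
    rw [h1, h]
    exact ⟨by linarith, by linarith⟩

/-- The affine parameter of a piece: from `u` at `k` to `v` at `k+1`. -/
def par (u v : ℝ) (k : ℕ) (s : ℝ) : ℝ := u + (s - k) * (v - u)

theorem par_cont (u v : ℝ) (k : ℕ) : Continuous (par u v k) := by
  unfold par; fun_prop

theorem par_left (u v : ℝ) (k : ℕ) : par u v k (k : ℝ) = u := by simp [par]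

theorem par_right (u v : ℝ) (k : ℕ) : par u v k ((k : ℝ) + 1) = v := by simp [par]

theorem par_inj (u v : ℝ) (h : u ≠ v) (k : ℕ) (s t : ℝ) (hst : par u v k s = par u v k t) :
    s = t := by
  unfold par at hst
  have h1 : (s - t) * (v - u) = 0 := by linarith
  rcases mul_eq_zero.1 h1 with h2 | h2
  · linarith
  · exact absurd (by linarith) h

theorem par_mem (u v : ℝ) (k : ℕ) (s : ℝ) (hs : s ∈ Icc (k : ℝ) (k + 1)) :
    par u v k s ∈ uIcc u v := by
  unfold par
  rw [mem_uIcc]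
  obtain ⟨h1, h2⟩ := hs
  rcases le_total u v with h | h
  · left
    constructor <;> nlinarith
  · right
    constructor <;> nlinarith

/-- the inverse of `par`. -/
noncomputable def ipar (u v : ℝ) (k : ℕ) (x : ℝ) : ℝ := k + (x - u) / (v - u)

theorem par_ipar (u v : ℝ) (h : u ≠ v) (k : ℕ) (x : ℝ) : par u v k (ipar u v k x) = x := by
  unfold par ipar
  have : v - u ≠ 0 := by
    intro h1; exact h (by linarith)
  field_simp
  ring

theorem ipar_mem (u v : ℝ) (k : ℕ) (x : ℝ) (hx : Btw u v x) :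
    ipar u v k x ∈ Ioo (k : ℝ) (k + 1) := by
  unfold ipar
  rcases hx with ⟨h1, h2⟩ | ⟨h1, h2⟩
  · have h3 : 0 < v - u := by linarith
    have h4 : 0 < (x - u) / (v - u) := div_pos (by linarith) h3
    have h5 : (x - u) / (v - u) < 1 := by rw [div_lt_one h3]; linarith
    exact ⟨by linarith, by linarith⟩
  · have h3 : v - u < 0 := by linarith
    have h4 : 0 < (x - u) / (v - u) := div_pos_of_neg_of_neg (by linarith) h3
    have h5 : (x - u) / (v - u) < 1 := by rw [div_lt_one_of_neg h3]; linarith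
    exact ⟨by linarith, by linarith⟩

/-- A closed walk: `m` pieces, the `k`-th from the parameter `u k` to `v k` of the curve `g k`. -/
structure Wk (m : ℕ) (g : ℕ → ℝ → ℝ × ℝ) (u v : ℕ → ℝ) : Prop where
  pos : 0 < m
  cont : ∀ k, k < m → Continuous (g k)
  inj : ∀ k, k < m → InjOn (g k) (uIcc (u k) (v k))
  ne : ∀ k, k < m → u k ≠ v k
  step : ∀ k, k + 1 < m → g k (v k) = g (k + 1) (u (k + 1))
  close : g (m - 1) (v (m - 1)) = g 0 (u 0)

/-- The closed curve of a walk. -/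
noncomputable def crv (m : ℕ) (g : ℕ → ℝ → ℝ × ℝ) (u v : ℕ → ℝ) : ℝ → ℝ × ℝ :=
  glue m (fun k s => g k (par (u k) (v k) k s))

variable {m : ℕ} {g : ℕ → ℝ → ℝ × ℝ} {u v : ℕ → ℝ}

theorem Wk.match' (h : Wk m g u v) (k : ℕ) (hk : k + 1 < m) :
    (fun k s => g k (par (u k) (v k) k s)) k ((k : ℝ) + 1) =
      (fun k s => g k (par (u k) (v k) k s)) (k + 1) ((k : ℝ) + 1) := by
  simp only
  rw [par_right]
  have h1 : ((k : ℝ) + 1) = ((k + 1 : ℕ) : ℝ) := by push_cast; rfl
  rw [h1, par_left, h.step k hk]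

theorem Wk.crv_eq (h : Wk m g u v) (k : ℕ) (hk : k < m) (s : ℝ) (hs : s ∈ Icc (k : ℝ) (k + 1)) :
    crv m g u v s = g k (par (u k) (v k) k s) :=
  glue_eq m _ (fun k hk => h.match' k hk) k hk s hs

theorem Wk.crv_cont (h : Wk m g u v) : ContinuousOn (crv m g u v) (Icc 0 (m : ℝ)) :=
  glue_cont m _ (fun k hk => h.match' k hk) (fun k hk => (h.cont k hk).comp (par_cont _ _ _))

theorem Wk.crv_closed (h : Wk m g u v) : crv m g u v 0 = crv m g u v (m : ℝ) := by
  have h1 := h.crv_eq 0 h.pos 0 (by simp)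
  have hm : ((m - 1 : ℕ) : ℝ) + 1 = (m : ℝ) := by
    rw [Nat.cast_sub h.pos]; simp
  have h2 := h.crv_eq (m - 1) (by have := h.pos; omega) (m : ℝ) (by rw [← hm]; simp)
  rw [h1, h2]
  have h3 : par (u (m - 1)) (v (m - 1)) (m - 1) (m : ℝ) = v (m - 1) := by
    rw [← hm]; exact par_right _ _ _
  rw [h3, h.close]
  have h4 : par (u 0) (v 0) 0 0 = u 0 := by simp [par]
  rw [h4]

end Pool.FFL
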